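import Pool.Agent.H.MP_6838a0_co.B

namespace Pool.Agent.Results.MP_6838a0_co.Gap

open Finset Matrix

open Classical in
noncomputable def lap {n : ℕ} (E : Fin n → Fin n → Prop) : Matrix (Fin n) (Fin n) ℝ :=
  diagonal (fun i => (#{j | E i j} : ℝ)) - of fun i j => if E i j then 1 else 0

def W {n : ℕ} (E : Fin n → Fin n → Prop) : Set ℝ :=
  {w | ∃ x : Fin n → ℝ, ∑ i, x i = 0 ∧ ∑ i, x i ^ 2 = 1 ∧ w = x ⬝ᵥ lap E *ᵥ x}

noncomputable def spread {n : ℕ} (E : Fin n → Fin n → Prop) : ℝ := sSup (W E) - sInf (W E)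

open Classical in
theorem result (n : ℕ) (hn : 2 ≤ n) (E : Fin n → Fin n → Prop) (hE : ∀ i, ¬ E i i)
    (hb : ∀ i, #{j | E i j} = #{j | E j i}) : ¬ (0 < spread E ∧ spread E < 1) := by
  rintro ⟨h0, h1⟩
  rcases H.MP_6838a0_co.B.both hn E hE hb h1.le with h | h
  · exact h0.ne' h
  · exact h1.not_ge h.2.2.1

end Pool.Agent.Results.MP_6838a0_co.Gap
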